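import Pool.Agent.Helper40.MR.Defs

/-! # Plancherel for sums over short multiplicative intervals -/

open MeasureTheory Set Filter Topology
open scoped ENNReal ContDiff FourierTransform

namespace Pool.Agent.Helper40.MR

/-- the Fourier integral of an integrable `L²` function is its `L²` Fourier transform -/
theorem pla_fourier_ae_eq (f : ℝ → ℂ) (hf : Integrable f) (hf2 : MemLp f 2) :
    ((𝓕 (hf2.toLp f) : Lp ℂ 2 (volume : Measure ℝ)) : ℝ → ℂ) =ᵐ[volume] 𝓕 f := by
  apply ae_eq_of_integral_contDiff_smul_eq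
  · exact (Lp.memLp _).locallyIntegrable (by norm_num)
  · apply Continuous.locallyIntegrable
    exact VectorFourier.fourierIntegral_continuous Real.continuous_fourierChar
      (innerSL ℝ).continuous₂ hf
  · intro g hg hgc
    have hg₁ : HasCompactSupport (Complex.ofRealCLM ∘ g) := hgc.comp_left rfl
    have hg₂ : ContDiff ℝ ∞ (Complex.ofRealCLM ∘ g) := by fun_prop
    let G : SchwartzMap ℝ ℂ := hg₁.toSchwartzMap hg₂
    have hG : ∀ x, G x = (g x : ℂ) := fun x => rfl
    have h1 : ∫ x, g x • ((𝓕 (hf2.toLp f) : Lp ℂ 2 (volume : Measure ℝ)) : ℝ → ℂ) x =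
        (Lp.toTemperedDistribution (𝓕 (hf2.toLp f) : Lp ℂ 2 (volume : Measure ℝ))) G := by
      rw [Lp.toTemperedDistribution_apply]
      rfl
    rw [h1, ← Lp.fourier_toTemperedDistribution_eq, TemperedDistribution.fourier_apply,
      Lp.toTemperedDistribution_apply]
    have h2 : ∫ x, (𝓕 G) x • ((hf2.toLp f : Lp ℂ 2 (volume : Measure ℝ)) : ℝ → ℂ) x =
        ∫ x, (𝓕 G) x • f x := by
      apply integral_congr_ae
      filter_upwards [hf2.coeFn_toLp] with x hx
      rw [hx]
    rw [h2]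
    have h3 := VectorFourier.integral_fourierIntegral_smul_eq_flip (μ := (volume : Measure ℝ))
      (ν := (volume : Measure ℝ))
      (L := innerₗ ℝ) (f := (G : ℝ → ℂ)) (g := f) Real.continuous_fourierChar
      continuous_inner G.integrable hf
    rw [flip_innerₗ] at h3
    exact h3

/-- Plancherel's theorem for the Fourier integral of a function in `L¹ ∩ L²` -/
theorem pla_plancherel (f : ℝ → ℂ) (hf : Integrable f) (hf2 : MemLp f 2) :
    eLpNorm (𝓕 f) 2 volume = eLpNorm f 2 volume := by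
  rw [← eLpNorm_congr_ae (pla_fourier_ae_eq f hf hf2)]
  have h1 := Lp.norm_fourier_eq (hf2.toLp f)
  rw [Lp.norm_def, Lp.norm_def, ENNReal.toReal_eq_toReal_iff' (Lp.eLpNorm_ne_top _)
    (Lp.eLpNorm_ne_top _)] at h1
  rw [h1]
  exact eLpNorm_congr_ae hf2.coeFn_toLp

theorem pla_continuous_fourier (f : ℝ → ℂ) (hf : Integrable f) : Continuous (𝓕 f) :=
  VectorFourier.fourierIntegral_continuous Real.continuous_fourierChar
      (innerSL ℝ).continuous₂ hf

/-- Plancherel with Bochner integrals -/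
theorem pla_plancherel_int (f : ℝ → ℂ) (hf : Integrable f) (hf2 : MemLp f 2) :
    ∫ x, ‖f x‖ ^ 2 = ∫ x, ‖𝓕 f x‖ ^ 2 := by
  have h := pla_plancherel f hf hf2
  have h2 : MemLp (𝓕 f) 2 volume := by
    refine ⟨(pla_continuous_fourier f hf).aestronglyMeasurable, ?_⟩
    rw [h]; exact hf2.2
  have key : ∀ g : ℝ → ℂ, MemLp g 2 volume →
      ENNReal.ofReal (∫ x, ‖g x‖ ^ 2) = eLpNorm g 2 volume ^ 2 := by
    intro g hg
    rw [ofReal_integral_eq_lintegral_ofReal (hg.integrable_norm_pow (by norm_num))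
      (Eventually.of_forall fun x => by positivity)]
    rw [eLpNorm_eq_lintegral_rpow_enorm_toReal (by norm_num) (by norm_num)]
    rw [← ENNReal.rpow_natCast, ← ENNReal.rpow_mul]
    norm_num
  have h3 := key f hf2
  have h4 := key _ h2
  rw [h, ← h3] at h4
  have h5 := (ENNReal.ofReal_eq_ofReal_iff (by positivity) (by positivity)).1 h4
  exact h5.symm

/-- one term of the step function times `exp (-u)` -/
noncomputable def pla_e (δ : ℝ) (n : ℕ) (u : ℝ) : ℂ :=
  Set.indicator (Set.Ico (Real.log n - δ) (Real.log n)) (fun u : ℝ => Complex.exp (-(u : ℂ))) u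

theorem pla_e_integrable (δ : ℝ) (n : ℕ) : Integrable (pla_e δ n) := by
  unfold pla_e
  rw [integrable_indicator_iff measurableSet_Ico]
  have : ContinuousOn (fun u : ℝ => Complex.exp (-(u : ℂ)))
      (Set.Icc (Real.log n - δ) (Real.log n)) := by fun_prop
  exact (this.integrableOn_Icc).mono_set Set.Ico_subset_Icc_self

theorem pla_e_memLp (δ : ℝ) (n : ℕ) : MemLp (pla_e δ n) 2 := by
  unfold pla_e
  rw [memLp_indicator_iff_restrict measurableSet_Ico]
  have hc : Continuous (fun u : ℝ => Complex.exp (-(u : ℂ))) := by fun_prop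
  refine MemLp.of_bound hc.aestronglyMeasurable (Real.exp (-(Real.log n - δ))) ?_
  refine (ae_restrict_iff' measurableSet_Ico).2 (Eventually.of_forall fun u hu => ?_)
  rw [Complex.norm_exp]
  apply Real.exp_le_exp.2
  simp only [Complex.neg_re, Complex.ofReal_re]
  linarith [hu.1]

theorem pla_c_ne (t : ℝ) : (1 : ℂ) + (t : ℂ) * Complex.I ≠ 0 := by
  intro h
  have := congrArg Complex.re h
  simp at this

/-- the Fourier transform of one term -/
theorem pla_e_fourier {δ : ℝ} (hδ : 0 < δ) {n : ℕ} (hn : 1 ≤ n) (ξ : ℝ) :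
    𝓕 (pla_e δ n) ξ = 1 / n * nit n (2 * Real.pi * ξ) *
      ((Complex.exp ((1 + ((2 * Real.pi * ξ : ℝ) : ℂ) * Complex.I) * δ) - 1)
        / (1 + ((2 * Real.pi * ξ : ℝ) : ℂ) * Complex.I)) := by
  rw [Real.fourier_real_eq_integral_exp_smul]
  set c : ℂ := 1 + ((2 * Real.pi * ξ : ℝ) : ℂ) * Complex.I with hc
  have hc0 : c ≠ 0 := pla_c_ne _
  have h1 : ∀ v : ℝ, Complex.exp (↑(-2 * Real.pi * v * ξ) * Complex.I) • pla_e δ n v
      = Set.indicator (Set.Ico (Real.log n - δ) (Real.log n))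
        (fun u : ℝ => Complex.exp (-c * (u : ℂ))) v := by
    intro v
    unfold pla_e
    by_cases hv : v ∈ Set.Ico (Real.log n - δ) (Real.log n)
    · rw [Set.indicator_of_mem hv, Set.indicator_of_mem hv, smul_eq_mul, ← Complex.exp_add]
      congr 1
      rw [hc]; push_cast; ring
    · rw [Set.indicator_of_notMem hv, Set.indicator_of_notMem hv, smul_zero]
  rw [integral_congr_ae (Eventually.of_forall h1), integral_indicator measurableSet_Ico,
    integral_Ico_eq_integral_Ioc, ← intervalIntegral.integral_of_le (by linarith),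
    integral_exp_mul_complex (neg_ne_zero.2 hc0)]
  have hn0 : (0 : ℝ) < n := by exact_mod_cast hn
  have e1 : Complex.exp (-c * (Real.log n : ℂ)) = 1 / n * nit n (2 * Real.pi * ξ) := by
    have : (1 : ℂ) / n = Complex.exp (-(Real.log n : ℂ)) := by
      rw [Complex.exp_neg, ← Complex.ofReal_exp, Real.exp_log hn0]
      simp
    rw [this, nit, ← Complex.exp_add]
    congr 1
    rw [hc]; push_cast; ring
  have e2 : Complex.exp (-c * ((Real.log n - δ : ℝ) : ℂ))
      = 1 / n * nit n (2 * Real.pi * ξ) * Complex.exp (c * δ) := by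
    rw [← e1, ← Complex.exp_add]
    congr 1
    push_cast; ring
  rw [e1, e2]
  field_simp
  ring

/-- bound for the multiplier -/
theorem pla_mult {δ t : ℝ} (hδ : 0 < δ) (hδ1 : δ ≤ 1) :
    ‖(Complex.exp ((1 + (t : ℂ) * Complex.I) * δ) - 1) / (1 + (t : ℂ) * Complex.I)‖ ^ 2
      ≤ 16 * min (δ ^ 2) (1 / (1 + t ^ 2)) := by
  set c : ℂ := 1 + (t : ℂ) * Complex.I with hc
  have hc0 : c ≠ 0 := pla_c_ne t
  have hcn : 0 < ‖c‖ := norm_pos_iff.2 hc0
  have hc2 : ‖c‖ ^ 2 = 1 + t ^ 2 := by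
    rw [← Complex.normSq_eq_norm_sq, Complex.normSq_apply, hc]
    simp
    ring
  have h1 : ‖Complex.exp (c * δ) - 1‖ ≤ 4 := by
    have h2 : ‖Complex.exp (c * δ)‖ ≤ 3 := by
      rw [Complex.norm_exp]
      have : (c * (δ : ℂ)).re = δ := by
        rw [hc]; simp
      rw [this]
      calc Real.exp δ ≤ Real.exp 1 := Real.exp_le_exp.2 hδ1
        _ ≤ 3 := by have := Real.exp_one_lt_d9; linarith
    calc _ ≤ ‖Complex.exp (c * δ)‖ + ‖(1 : ℂ)‖ := norm_sub_le _ _
      _ ≤ 4 := by rw [norm_one]; linarith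
  have h3 : ‖(Complex.exp (c * δ) - 1) / c‖ ≤ 4 * δ := by
    rw [norm_div, div_le_iff₀ hcn]
    by_cases h : ‖c * (δ : ℂ)‖ ≤ 1
    · have := Complex.norm_exp_sub_one_le h
      rw [norm_mul, Complex.norm_real, Real.norm_of_nonneg hδ.le] at this
      nlinarith
    · rw [not_le, norm_mul, Complex.norm_real, Real.norm_of_nonneg hδ.le] at h
      nlinarith
  rw [mul_min_of_nonneg _ _ (by norm_num)]
  refine le_min ?_ ?_
  · calc _ ≤ (4 * δ) ^ 2 := pow_le_pow_left₀ (norm_nonneg _) h3 2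
      _ = 16 * δ ^ 2 := by ring
  · rw [norm_div, div_pow, hc2]
    rw [mul_one_div]
    gcongr
    calc _ ≤ (4 : ℝ) ^ 2 := pow_le_pow_left₀ (norm_nonneg _) h1 2
      _ = 16 := by norm_num

theorem pla_nit_cont (n : ℕ) : Continuous (nit n) := by
  unfold nit; fun_prop

theorem pla_nit_norm (n : ℕ) (t : ℝ) : ‖nit n t‖ = 1 := by
  unfold nit
  rw [← Complex.ofReal_neg, Complex.norm_exp_ofReal_mul_I]

theorem pla_DP_cont (s : Finset ℕ) (a : ℕ → ℂ) : Continuous (DP s a) := by
  unfold DP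
  exact continuous_finsetSum _ fun n _ => continuous_const.mul (pla_nit_cont n)

theorem pla_DP_bound (s : Finset ℕ) (a : ℕ → ℂ) (t : ℝ) : ‖DP s a t‖ ≤ ∑ n ∈ s, ‖a n / n‖ := by
  unfold DP
  refine (norm_sum_le _ _).trans (Finset.sum_le_sum fun n _ => ?_)
  rw [norm_mul, pla_nit_norm, mul_one]

theorem pla_rhs_integrable (s : Finset ℕ) (a : ℕ → ℂ) (δ : ℝ) :
    Integrable (fun t : ℝ => ‖DP s a t‖ ^ 2 * min (δ ^ 2) (1 / (1 + t ^ 2))) := by
  have h0 : ∀ t : ℝ, (0 : ℝ) < 1 + t ^ 2 := fun t => by positivity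
  have hi : Integrable (fun t : ℝ => (∑ n ∈ s, ‖a n / n‖) ^ 2 * (1 + t ^ 2)⁻¹) :=
    integrable_inv_one_add_sq.const_mul _
  refine hi.mono' ?_ ?_
  · refine Continuous.aestronglyMeasurable ?_
    refine ((pla_DP_cont s a).norm.pow 2).mul (continuous_const.min ?_)
    exact continuous_const.div (by fun_prop) fun t => (h0 t).ne'
  · refine Eventually.of_forall fun t => ?_
    have h1 : 0 ≤ min (δ ^ 2) (1 / (1 + t ^ 2)) := le_min (sq_nonneg _) (by positivity)
    rw [Real.norm_of_nonneg (by positivity)]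
    refine mul_le_mul (pow_le_pow_left₀ (norm_nonneg _) (pla_DP_bound s a t) 2) ?_ h1
      (by positivity)
    rw [← one_div]
    exact min_le_right _ _

theorem st_PLA : ST_PLA := by
  refine ⟨16, by norm_num, fun s δ a hs hδ hδ1 => ?_⟩
  set g : ℝ → ℂ := fun u => ∑ n ∈ s, a n * pla_e δ n u with hg
  have hgi : Integrable g := integrable_finsetSum _ fun n _ => (pla_e_integrable δ n).const_mul _
  have hg2 : MemLp g 2 := memLp_finsetSum _ fun n _ => (pla_e_memLp δ n).const_mul _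
  have h1 : ∀ u : ℝ, ‖∑ n ∈ s.filter
      (fun n : ℕ => u < Real.log n ∧ Real.log n ≤ u + δ), a n‖ ^ 2 * Real.exp (-(2 * u))
      = ‖g u‖ ^ 2 := by
    intro u
    have : g u = (∑ n ∈ s.filter
      (fun n : ℕ => u < Real.log n ∧ Real.log n ≤ u + δ), a n) * Complex.exp (-(u : ℂ)) := by
      rw [hg, Finset.sum_mul, Finset.sum_filter]
      refine Finset.sum_congr rfl fun n _ => ?_
      unfold pla_e
      split_ifs with h
      · have hmem : u ∈ Set.Ico (Real.log n - δ) (Real.log n) := ⟨by linarith [h.2], h.1⟩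
        rw [Set.indicator_of_mem hmem]
      · rw [Set.indicator_of_notMem, mul_zero]
        rintro ⟨h1, h2⟩
        exact h ⟨h2, by linarith⟩
    rw [this, norm_mul, mul_pow]
    congr 1
    rw [Complex.norm_exp, ← Real.exp_nat_mul]
    congr 1
    simp
  rw [integral_congr_ae (Eventually.of_forall h1), pla_plancherel_int g hgi hg2]
  have h2 : ∀ ξ : ℝ, 𝓕 g ξ = DP s a (2 * Real.pi * ξ) *
      ((Complex.exp ((1 + ((2 * Real.pi * ξ : ℝ) : ℂ) * Complex.I) * δ) - 1)
        / (1 + ((2 * Real.pi * ξ : ℝ) : ℂ) * Complex.I)) := by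
    intro ξ
    have e : 𝓕 g ξ = ∑ n ∈ s, a n * 𝓕 (pla_e δ n) ξ := by
      simp only [Real.fourier_real_eq_integral_exp_smul, hg]
      simp only [Finset.smul_sum]
      rw [integral_finsetSum]
      · refine Finset.sum_congr rfl fun n _ => ?_
        rw [← integral_const_mul]
        refine integral_congr_ae (Eventually.of_forall fun v => ?_)
        simp only [smul_eq_mul]
        ring
      · intro n _
        have hb : Integrable (fun v : ℝ => a n * pla_e δ n v) := (pla_e_integrable δ n).const_mul _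
        have := (Real.fourierIntegral_convergent_iff (V := ℝ) (f := fun v : ℝ => a n * pla_e δ n v)
          ξ).2 hb
        refine this.congr (Eventually.of_forall fun v => ?_)
        simp only [Circle.smul_def, Real.fourierChar_apply]
        congr 2
        simp
        ring
    rw [e, DP, Finset.sum_mul]
    refine Finset.sum_congr rfl fun n hn => ?_
    rw [pla_e_fourier hδ (hs n hn)]
    ring
  have h3 : ∀ ξ : ℝ, ‖𝓕 g ξ‖ ^ 2 ≤ 16 * (fun t : ℝ => ‖DP s a t‖ ^ 2 *
      min (δ ^ 2) (1 / (1 + t ^ 2))) ((2 * Real.pi) * ξ) := by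
    intro ξ
    rw [h2, norm_mul, mul_pow]
    have := mul_le_mul_of_nonneg_left (pla_mult (t := 2 * Real.pi * ξ) hδ hδ1)
      (sq_nonneg ‖DP s a (2 * Real.pi * ξ)‖)
    simp only
    linarith
  have hint := pla_rhs_integrable s a δ
  have hpi : 0 < 2 * Real.pi := by positivity
  have h4 : Integrable (fun ξ : ℝ => 16 * (fun t : ℝ => ‖DP s a t‖ ^ 2 *
      min (δ ^ 2) (1 / (1 + t ^ 2))) ((2 * Real.pi) * ξ)) :=
    ((integrable_comp_mul_left_iff _ hpi.ne').2 hint).const_mul _
  have h5 : ∫ ξ, ‖𝓕 g ξ‖ ^ 2 ≤ ∫ ξ, 16 * (fun t : ℝ => ‖DP s a t‖ ^ 2 *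
      min (δ ^ 2) (1 / (1 + t ^ 2))) ((2 * Real.pi) * ξ) :=
    integral_mono_of_nonneg (Eventually.of_forall fun ξ => by positivity) h4
      (Eventually.of_forall h3)
  refine h5.trans ?_
  have hcm := Measure.integral_comp_mul_left (fun t : ℝ => ‖DP s a t‖ ^ 2 *
      min (δ ^ 2) (1 / (1 + t ^ 2))) (2 * Real.pi)
  rw [integral_const_mul, hcm]
  have h6 : 0 ≤ ∫ t : ℝ, ‖DP s a t‖ ^ 2 * min (δ ^ 2) (1 / (1 + t ^ 2)) := by
    refine integral_nonneg fun t => ?_
    have h1 : 0 ≤ min (δ ^ 2) (1 / (1 + t ^ 2)) := le_min (sq_nonneg _) (by positivity)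
    simp only [Pi.zero_apply]
    positivity
  have h7 : |(2 * Real.pi)⁻¹| ≤ 1 := by
    rw [abs_of_pos (inv_pos.2 hpi)]
    apply inv_le_one_of_one_le₀
    have := Real.pi_gt_three
    linarith
  rw [smul_eq_mul]
  nlinarith

end Pool.Agent.Helper40.MR
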