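import Pool.Agent.Helper40.MR.Defs

/-! # Truncation of sums over primes -/

open Finset

namespace Pool.Agent.Helper40.MR

/-- weighted indicator of the primes -/
noncomputable def sig_w (σ : ℝ) (n : ℕ) : ℝ :=
  if n.Prime then Real.log n * (n : ℝ) ^ (-(1 + σ)) else 0

theorem sig_w_nonneg (σ : ℝ) (n : ℕ) : 0 ≤ sig_w σ n := by
  unfold sig_w
  split_ifs with h
  · exact mul_nonneg (Real.log_natCast_nonneg n) (Real.rpow_nonneg (Nat.cast_nonneg n) _)
  · exact le_refl _

theorem sig_block {σ : ℝ} (hσ : 0 < σ) (N : ℕ) :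
    ∑ n ∈ Ico (2 ^ N) (2 ^ (N + 1)), sig_w σ n ≤ 2 * Real.log 4 * ((2 : ℝ) ^ (-σ)) ^ N := by
  have h1 : ∀ n ∈ Ico (2 ^ N) (2 ^ (N + 1)), sig_w σ n ≤
      (if n.Prime then Real.log n else 0) * ((2 : ℝ) ^ N) ^ (-(1 + σ)) := by
    intro n hn
    rw [mem_Ico] at hn
    unfold sig_w
    split_ifs with h
    · refine mul_le_mul_of_nonneg_left ?_ (Real.log_natCast_nonneg n)
      refine Real.rpow_le_rpow_of_nonpos (by positivity) ?_ (by linarith)
      exact_mod_cast hn.1
    · rw [zero_mul]
  refine (sum_le_sum h1).trans ?_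
  rw [← sum_mul]
  have h2 : ∑ n ∈ Ico (2 ^ N : ℕ) (2 ^ (N + 1)), (if n.Prime then Real.log n else 0)
      ≤ Real.log 4 * 2 ^ (N + 1) := by
    have h3 := Chebyshev.theta_le_log4_mul_x (x := (2 : ℝ) ^ (N + 1)) (by positivity)
    refine le_trans ?_ h3
    rw [Chebyshev.theta_eq_sum_Icc]
    have h4 : ⌊(2 : ℝ) ^ (N + 1)⌋₊ = 2 ^ (N + 1) := by
      have : (2 : ℝ) ^ (N + 1) = ((2 ^ (N + 1) : ℕ) : ℝ) := by push_cast; rfl
      rw [this, Nat.floor_natCast]
    rw [h4, sum_filter]
    refine sum_le_sum_of_subset_of_nonneg ?_ ?_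
    · intro n hn
      rw [mem_Ico] at hn
      rw [mem_Icc]
      exact ⟨Nat.zero_le _, hn.2.le⟩
    · intro n _ _
      split_ifs
      · exact Real.log_natCast_nonneg n
      · exact le_refl _
  have h5 : ((2 : ℝ) ^ N) ^ (-(1 + σ)) = ((2 : ℝ) ^ N)⁻¹ * ((2 : ℝ) ^ (-σ)) ^ N := by
    rw [← Real.rpow_natCast 2 N, ← Real.rpow_mul (by norm_num), ← Real.rpow_natCast _ N,
      ← Real.rpow_mul (by norm_num), ← Real.rpow_neg (by norm_num),
      ← Real.rpow_add (by norm_num)]
    congr 1
    ring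
  rw [h5]
  have h6 : 0 ≤ ((2 : ℝ) ^ N)⁻¹ * ((2 : ℝ) ^ (-σ)) ^ N := by positivity
  refine (mul_le_mul_of_nonneg_right h2 h6).trans (le_of_eq ?_)
  have : (2 : ℝ) ^ N ≠ 0 := by positivity
  rw [pow_succ]
  field_simp

theorem sig_range {σ : ℝ} (hσ : 0 < σ) (N : ℕ) :
    ∑ n ∈ range (2 ^ N), sig_w σ n ≤ ∑ k ∈ range N, 2 * Real.log 4 * ((2 : ℝ) ^ (-σ)) ^ k := by
  induction N with
  | zero =>
    simp [sig_w]
  | succ N ih =>
    rw [sum_range_succ, ← sum_range_add_sum_Ico (fun n => sig_w σ n)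
      (Nat.pow_le_pow_right (by norm_num) (Nat.le_succ N))]
    exact add_le_add ih (sig_block hσ N)

theorem sig_geom {σ : ℝ} (hσ : 0 < σ) (hσ1 : σ ≤ 1) (N : ℕ) :
    ∑ k ∈ range N, ((2 : ℝ) ^ (-σ)) ^ k ≤ 2 / (σ * Real.log 2) := by
  have hl : 0 < Real.log 2 := Real.log_pos (by norm_num)
  have hl1 : Real.log 2 < 1 := by have := Real.log_two_lt_d9; linarith
  set y := σ * Real.log 2 with hy
  have hy0 : 0 < y := by positivity
  have hy1 : y ≤ 1 := by nlinarith
  have hr : (2 : ℝ) ^ (-σ) = Real.exp (-y) := by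
    rw [Real.rpow_def_of_pos (by norm_num)]
    congr 1
    rw [hy]; ring
  have hr1 : Real.exp (-y) ≤ 1 / (1 + y) := by
    rw [Real.exp_neg, ← one_div]
    apply one_div_le_one_div_of_le (by linarith)
    have := Real.add_one_le_exp y
    linarith
  have hr2 : 1 - Real.exp (-y) ≥ y / 2 := by
    have : 1 / (1 + y) ≤ 1 - y / 2 := by
      rw [div_le_iff₀ (by linarith)]
      nlinarith
    linarith
  have h0 : 0 < 1 - Real.exp (-y) := by linarith
  rw [hr, geom_sum_eq (by linarith : Real.exp (-y) ≠ 1)]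
  rw [← neg_div_neg_eq, div_le_div_iff₀ (by linarith) hy0]
  have : 0 ≤ (Real.exp (-y)) ^ N := by positivity
  nlinarith

theorem sig_sum {σ : ℝ} (hσ : 0 < σ) (hσ1 : σ ≤ 1) (N : ℕ) :
    ∑ n ∈ range N, sig_w σ n ≤ 2 * Real.log 4 * (2 / (σ * Real.log 2)) := by
  have h1 : ∑ n ∈ range N, sig_w σ n ≤ ∑ n ∈ range (2 ^ N), sig_w σ n :=
    sum_le_sum_of_subset_of_nonneg (range_subset_range.2 Nat.lt_two_pow_self.le)
      fun n _ _ => sig_w_nonneg σ n
  refine h1.trans ((sig_range hσ N).trans ?_)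
  rw [← mul_sum]
  refine mul_le_mul_of_nonneg_left (sig_geom hσ hσ1 N) ?_
  have : 0 ≤ Real.log 4 := Real.log_nonneg (by norm_num)
  linarith

theorem sig_summable {σ : ℝ} (hσ : 0 < σ) (hσ1 : σ ≤ 1) : Summable (sig_w σ) :=
  summable_of_sum_range_le (sig_w_nonneg σ) (sig_sum hσ hσ1)

theorem sig_tsum {σ : ℝ} (hσ : 0 < σ) (hσ1 : σ ≤ 1) :
    ∑' n, sig_w σ n ≤ 2 * Real.log 4 * (2 / (σ * Real.log 2)) :=
  Real.tsum_le_of_sum_range_le (sig_w_nonneg σ) (sig_sum hσ hσ1)

theorem st_SIG : ST_SIG := by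
  have hl : 0 < Real.log 2 := Real.log_pos (by norm_num)
  have hl4 : 0 < Real.log 4 := Real.log_pos (by norm_num)
  refine ⟨Real.exp 1 * (2 * Real.log 4 * (2 / Real.log 2)), by positivity, fun a x ha hx => ?_⟩
  have hlx : 1 < Real.log x := by
    rw [Real.lt_log_iff_exp_lt (by linarith)]
    have := Real.exp_one_lt_d9
    linarith
  set σ := 1 / Real.log x with hσdef
  have hσ : 0 < σ := by positivity
  have hσ1 : σ ≤ 1 := by
    rw [hσdef, div_le_one (by linarith)]; exact hlx.le
  have hx0 : 0 < x := by linarith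
  classical
  set g : ℕ → ℝ := fun n => if n.Prime then a n * (n : ℝ) ^ (-(1 + σ)) else 0 with hg
  set k : ℕ → ℝ := fun n => if n ∈ PrL x then a n / n else 0 with hk
  have hgs : Summable g := by
    have h1 : Summable (fun n : ℕ => (n : ℝ) ^ (-(1 + σ))) :=
      Real.summable_nat_rpow.2 (by linarith)
    refine Summable.of_norm_bounded h1 fun n => ?_
    have hp : 0 ≤ (n : ℝ) ^ (-(1 + σ)) := Real.rpow_nonneg (Nat.cast_nonneg n) _
    simp only [hg]
    split_ifs
    · rw [norm_mul, Real.norm_of_nonneg hp, Real.norm_eq_abs]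
      nlinarith [ha n]
    · rw [norm_zero]; exact hp
  have hg1 : ∑' p : Nat.Primes, a p * (p : ℝ) ^ (-(1 + σ)) = ∑' n, g n := by
    have h1 : ∑' p : Nat.Primes, a p * (p : ℝ) ^ (-(1 + σ))
        = ∑' n : ℕ, Set.indicator {p : ℕ | p.Prime} (fun n => a n * (n : ℝ) ^ (-(1 + σ))) n := by
      rw [← _root_.tsum_subtype]
      rfl
    rw [h1]
    refine tsum_congr fun n => ?_
    simp only [hg, Set.indicator, Set.mem_ofPred_eq]
  have hk1 : ∑ p ∈ PrL x, a p / p = ∑' n, k n := by
    rw [tsum_eq_sum (s := PrL x)]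
    · refine sum_congr rfl fun n hn => ?_
      simp only [hk, if_pos hn]
    · intro n hn
      simp only [hk, if_neg hn]
  have hks : Summable k := by
    refine summable_of_ne_finset_zero (s := PrL x) fun n hn => ?_
    simp only [hk, if_neg hn]
  rw [hg1, hk1, ← hgs.tsum_sub hks]
  have hb : ∀ n, ‖g n - k n‖ ≤ Real.exp 1 * σ * sig_w σ n := by
    intro n
    by_cases hn : n.Prime
    · have hn0 : (0 : ℝ) < n := by exact_mod_cast hn.pos
      have hnl : 0 ≤ Real.log n := Real.log_natCast_nonneg n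
      have hfp : 0 < (n : ℝ) ^ (-(1 + σ)) := Real.rpow_pos_of_pos hn0 _
      have hf : (n : ℝ) ^ (-(1 + σ)) = 1 / n * Real.exp (-(σ * Real.log n)) := by
        rw [neg_add, Real.rpow_add hn0, Real.rpow_neg_one, one_div]
        congr 1
        rw [Real.rpow_def_of_pos hn0]
        congr 1; ring
      have hgn : g n = a n * (n : ℝ) ^ (-(1 + σ)) := by simp only [hg, if_pos hn]
      have hwn : sig_w σ n = Real.log n * (n : ℝ) ^ (-(1 + σ)) := by
        unfold sig_w; rw [if_pos hn]
      by_cases hnx : (n : ℝ) ≤ x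
      · have hmem : n ∈ PrL x := by
          unfold PrL
          rw [mem_filter, mem_Icc]
          exact ⟨⟨hn.pos, Nat.le_floor hnx⟩, hn⟩
        have hkn : k n = a n / n := by simp only [hk, if_pos hmem]
        have h1 : σ * Real.log n ≤ 1 := by
          rw [hσdef, one_div, inv_mul_le_iff₀ (by linarith), mul_one]
          exact Real.log_le_log hn0 hnx
        have h2 : Real.exp (-1) ≤ Real.exp (-(σ * Real.log n)) := Real.exp_le_exp.2 (by linarith)
        have h3 : 1 - σ * Real.log n ≤ Real.exp (-(σ * Real.log n)) := by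
          have := Real.add_one_le_exp (-(σ * Real.log n)); linarith
        have h4 : Real.exp (-(σ * Real.log n)) ≤ 1 := by
          rw [Real.exp_le_one_iff]
          have : 0 ≤ σ * Real.log n := by positivity
          linarith
        have e1 : g n - k n = a n * (1 / n * (Real.exp (-(σ * Real.log n)) - 1)) := by
          rw [hgn, hkn, hf]; ring
        rw [e1, norm_mul, Real.norm_eq_abs, Real.norm_eq_abs, hwn, hf]
        have e2 : |1 / (n : ℝ) * (Real.exp (-(σ * Real.log n)) - 1)|
            = 1 / n * (1 - Real.exp (-(σ * Real.log n))) := by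
          rw [abs_mul, abs_of_pos (by positivity : (0 : ℝ) < 1 / n), abs_of_nonpos (by linarith)]
          ring
        rw [e2]
        have h5 : 0 ≤ 1 / (n : ℝ) * (1 - Real.exp (-(σ * Real.log n))) := by
          have : (0 : ℝ) < 1 / n := by positivity
          nlinarith
        have h6 : 1 ≤ Real.exp 1 * Real.exp (-(σ * Real.log n)) := by
          have : Real.exp 1 * Real.exp (-1) = 1 := by rw [← Real.exp_add]; simp
          have h7 : 0 < Real.exp 1 := Real.exp_pos 1
          nlinarith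
        calc |a n| * (1 / n * (1 - Real.exp (-(σ * Real.log n))))
            ≤ 1 * (1 / n * (1 - Real.exp (-(σ * Real.log n)))) :=
              mul_le_mul_of_nonneg_right (ha n) h5
          _ ≤ 1 / n * (σ * Real.log n) := by
              rw [one_mul]
              refine mul_le_mul_of_nonneg_left ?_ (by positivity)
              linarith
          _ = (1 / n * (σ * Real.log n)) * 1 := by ring
          _ ≤ (1 / n * (σ * Real.log n)) * (Real.exp 1 * Real.exp (-(σ * Real.log n))) := by
              refine mul_le_mul_of_nonneg_left h6 (by positivity)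
          _ = _ := by ring
      · have hmem : n ∉ PrL x := by
          intro hm
          unfold PrL at hm
          rw [mem_filter, mem_Icc] at hm
          exact hnx ((Nat.le_floor_iff hx0.le).1 hm.1.2)
        have hkn : k n = 0 := by simp only [hk, if_neg hmem]
        rw [not_le] at hnx
        have h1 : 1 ≤ σ * Real.log n := by
          rw [hσdef, one_div, ← div_eq_inv_mul, le_div_iff₀ (by linarith), one_mul]
          exact Real.log_le_log hx0 hnx.le
        rw [hgn, hkn, sub_zero, norm_mul, Real.norm_eq_abs, Real.norm_of_nonneg hfp.le, hwn]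
        have h2 : 1 ≤ Real.exp 1 := Real.one_le_exp (by norm_num)
        calc |a n| * (n : ℝ) ^ (-(1 + σ)) ≤ 1 * (n : ℝ) ^ (-(1 + σ)) :=
              mul_le_mul_of_nonneg_right (ha n) hfp.le
          _ ≤ (Real.exp 1 * (σ * Real.log n)) * (n : ℝ) ^ (-(1 + σ)) := by
              refine mul_le_mul_of_nonneg_right ?_ hfp.le
              nlinarith
          _ = _ := by ring
    · have hgn : g n = 0 := by simp only [hg, if_neg hn]
      have hmem : n ∉ PrL x := by
        intro hm
        unfold PrL at hm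
        exact hn (mem_filter.1 hm).2
      have hkn : k n = 0 := by simp only [hk, if_neg hmem]
      rw [hgn, hkn, sub_zero, norm_zero]
      have := sig_w_nonneg σ n
      positivity
  have hws := (sig_summable hσ hσ1).mul_left (Real.exp 1 * σ)
  have h1 := tsum_of_norm_bounded hws.hasSum hb
  rw [← Real.norm_eq_abs]
  refine h1.trans ?_
  rw [tsum_mul_left]
  have h2 := mul_le_mul_of_nonneg_left (sig_tsum hσ hσ1)
    (by positivity : 0 ≤ Real.exp 1 * σ)
  refine h2.trans (le_of_eq ?_)
  field_simp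

end Pool.Agent.Helper40.MR
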